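import Pool.Agent.H584.NT.Fin

/-!
# The limit points of the exponents of admissible `n`-tuples

For an admissible `n`-tuple `x` let `exponent x = log max |x_j| / log rad (x_1 ⋯ x_n)`; Q1 for `n` says
that the exponents of the admissible `n`-tuples are bounded. Let `L n` be the set of the limit points
of the exponents. For `n = 3` Browkin, Filaseta, Greaves and Schinzel, and Greaves and Nitaj, proved
that `L 3` contains long intervals. For `n ≥ 4` we prove that `L n` contains the interval
`[1 / n, max (2 n - 7, 5 (2 n - 5) / 6)]`, that it contains every number between `1 / n` and any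
exponent which is exceeded by arbitrarily large `(n - 1)`-tuples, so that `L n = [1 / n, ∞)` if Q1
fails for `n - 1`, and that the sharper form of the conjecture of Browkin and Brzeziński for `n` says
exactly that Q1 holds for `n` and `L n ⊆ [1 / n, 2 n - 5]`.

Outline. (a) Mixing: from an admissible `n`-tuple `x` and an integer `m` one gets, after division by
the greatest common divisor, the admissible `(n + 1)`-tuple
`(x_1, m x_1, (m + 1) x_2, …, (m + 1) x_n)`. The average over `m` in `(W, 2 W]` of the logarithm of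
the part of `m (m + 1)` which consists of square factors and of primes of `x_1 ⋯ x_n` is at most
`C + ε log rad`, so for a suitable `m` the size is multiplied by `W` and the radical by `W ^ 2`, up to
small factors. Hence all exponents between the exponent of `x` and `1 / 2` are limit points for
`n + 1`. (b) Small exponents come from the counts of `ExactExponentOfExceptions` and
`ExactCountOfExceptions`, large ones from `RecordsForEveryN`. (c) The tuples
`(a ^ m, b ^ m, …)`, `m = 2 n - 5`, of Browkin and Brzeziński, for abc triples with prescribed radicals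
of the members (`JointLimitPoints`), have known exponents.
-/

set_option autoImplicit false

namespace Pool.Agent.Results.MP_a95293_nt.ExponentSpectrum

/-- The admissible `n`-tuples of the problem: coprime integers with sum zero and no vanishing proper
sub-sum. -/
def Admissible {n : ℕ} (x : Fin n → ℤ) : Prop :=
  Finset.univ.gcd x = 1 ∧ ∑ i, x i = 0 ∧
    ∀ I : Finset (Fin n), I.Nonempty → I ≠ Finset.univ → ∑ i ∈ I, x i ≠ 0

/-- The radical of `x_1 ⋯ x_n`: the product of the primes dividing it. -/
def rad {n : ℕ} (x : Fin n → ℤ) : ℕ := ∏ p ∈ (∏ i, x i).natAbs.primeFactors, p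

/-- The size `max |x_j|`. -/
def size {n : ℕ} (x : Fin n → ℤ) : ℕ := Finset.univ.sup fun i => (x i).natAbs

/-- The exponent `log max |x_j| / log rad (x_1 ⋯ x_n)`. -/
noncomputable def exponent {n : ℕ} (x : Fin n → ℤ) : ℝ := Real.log (size x) / Real.log (rad x)

/-- `lam` is a limit point of the exponents: there are admissible `n`-tuples, of size as large as
desired, with exponent as close to `lam` as desired. -/
def LimitPoint (n : ℕ) (lam : ℝ) : Prop :=
  ∀ ε : ℝ, 0 < ε → ∀ N : ℝ, ∃ x : Fin n → ℤ, Admissible x ∧ N < size x ∧ |exponent x - lam| < ε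

/-- The assertion of Q1 for a fixed `n`. -/
def HoldsFor (n : ℕ) : Prop :=
  ∃ M : ℝ, ∀ x : Fin n → ℤ, Admissible x → ∀ j, (|x j| : ℝ) ≤ (rad x : ℝ) ^ M

/-- The sharper form of the conjecture for `n`: for every `ε > 0` all but finitely many admissible
`n`-tuples satisfy `max |x_j| ≤ rad ^ (2 n - 5 + ε)`. -/
def SharperForm (n : ℕ) : Prop :=
  ∀ ε : ℝ, 0 < ε →
    {x : Fin n → ℤ | Admissible x ∧ ∃ j, (rad x : ℝ) ^ (2 * (n : ℝ) - 5 + ε) < (|x j| : ℝ)}.Finite

/-- **Main theorem.**
(1) For `n ≥ 4` every real number between `1 / n` and `max (2 n - 7, 5 (2 n - 5) / 6)` is a limit point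
of the exponents of the admissible `n`-tuples.
(2) If, for some `n ≥ 3` and `q`, there are arbitrarily large admissible `n`-tuples with
`rad ^ q ≤ max |x_j|`, then every real number between `1 / (n + 1)` and `q` is a limit point of the
exponents of the admissible `(n + 1)`-tuples.
(3) If Q1 fails for `n ≥ 3`, then every real number `≥ 1 / (n + 1)` is a limit point of the exponents
of the admissible `(n + 1)`-tuples.
(4) The limit points for `n ≥ 3` are all at least `1 / n`.
(5) The sharper form of the conjecture holds for `n ≥ 3` if and only if Q1 holds for `n` and all limit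
points of the exponents of the admissible `n`-tuples are at most `2 n - 5`. -/
theorem result :
    (∀ n : ℕ, 4 ≤ n → ∀ lam : ℝ, 1 / (n : ℝ) ≤ lam →
      lam ≤ max (2 * (n : ℝ) - 7) (5 / 6 * (2 * (n : ℝ) - 5)) → LimitPoint n lam) ∧
    (∀ n : ℕ, 3 ≤ n → ∀ q : ℝ,
      (∀ N : ℝ, ∃ x : Fin n → ℤ, Admissible x ∧ N < size x ∧ (rad x : ℝ) ^ q ≤ size x) →
      ∀ lam : ℝ, 1 / ((n : ℝ) + 1) ≤ lam → lam ≤ q → LimitPoint (n + 1) lam) ∧
    (∀ n : ℕ, 3 ≤ n → ¬ HoldsFor n →
      ∀ lam : ℝ, 1 / ((n : ℝ) + 1) ≤ lam → LimitPoint (n + 1) lam) ∧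
    (∀ n : ℕ, 3 ≤ n → ∀ lam : ℝ, LimitPoint n lam → 1 / (n : ℝ) ≤ lam) ∧
    ∀ n : ℕ, 3 ≤ n →
      (SharperForm n ↔ HoldsFor n ∧ ∀ lam : ℝ, LimitPoint n lam → lam ≤ 2 * (n : ℝ) - 5) := by
  refine ⟨fun n hn lam h1 h2 => Pool.Agent.H584.NT.spectrum hn lam h1 h2, ?_,
    fun n hn h lam h1 => Pool.Agent.H584.NT.fails hn h lam h1,
    fun n hn lam h => Pool.Agent.H584.NT.lower hn h,
    fun n hn => Pool.Agent.H584.NT.sharp_iff hn _⟩
  intro n hn q H lam h1 h2
  refine Pool.Agent.H584.NT.all_below hn (q := q) (fun N => ?_) lam h1 h2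
  obtain ⟨x, hx, hN, hq⟩ := H (Real.exp N)
  have hx' : Pool.Agent.Q39.NT.Adm x := hx
  have hs : (0 : ℝ) < size x := (Real.exp_pos N).trans hN
  have hr : (0 : ℝ) < rad x := by exact_mod_cast Pool.Agent.Q39.NT.rd_pos x
  refine ⟨x, hx', (Real.lt_log_iff_exp_lt hs).2 hN, ?_⟩
  have h3 := Real.log_le_log (Real.rpow_pos_of_pos hr q) hq
  rwa [Real.log_rpow hr] at h3

end Pool.Agent.Results.MP_a95293_nt.ExponentSpectrum
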