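import Pool.Agent.H573.AHB.LpE

/-!
# The n-conjecture for tuples of powers: degenerate modulo many primes, large radical

For tuples of `K`-th powers the n-term abc conjecture says that for `K > n M_n` there are no admissible
`n`-tuples at all. For every `M` there are `δ > 0` and a set of exponents `k` of positive lower density
with the following property: there are at least `k^δ` primes `q` such that, for all multiples `K > 0`
of `k`, every admissible `n`-tuple `x`, `3 ≤ n ≤ M`, the terms of which are plus or minus `K`-th powers,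
cancels in pairs modulo `q`; and if `x` has not as many positive as negative terms, for instance if `n`
is odd, then all these primes divide `x_1 ⋯ x_n`, so that `rad(x_1 ⋯ x_n) ≥ exp(k^δ)` and
`max |x_j| ≥ exp(K k^δ / n)`.

Proof: `q - 1 = ℓ k` with a prime `ℓ > M`, so the `K`-th powers modulo `q` are zero or `ℓ`-th roots of
unity, and a signed sum of at most `M` of them which does not vanish identically is not divisible by
the cyclotomic polynomial; so it vanishes modulo few primes `q` only (resultants). The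
Bombieri-Vinogradov theorem gives many pairs `(q, ℓ)` with `ℓ ∣ q - 1`, and an upper bound sieve and
Cauchy's inequality show that they belong to a positive proportion of the `k`.
-/

namespace Pool.Agent.Results.MP_a95293_nt.PowersPairedModManyPrimes

/-- the product of the primes dividing `m` -/
def rad (m : ℤ) : ℕ := ∏ p ∈ m.natAbs.primeFactors, p

/-- the admissible tuples: no common prime factor, sum zero, no vanishing proper sub-sum -/
def Admissible {n : ℕ} (x : Fin n → ℤ) : Prop :=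
  (∀ p : ℕ, p.Prime → ∃ j, ¬ (p : ℤ) ∣ x j) ∧ ∑ j, x j = 0 ∧
    ∀ S : Finset (Fin n), S.Nonempty → S ≠ Finset.univ → ∑ j ∈ S, x j ≠ 0

/-- every term is plus or minus a `K`-th power -/
def Powers (K : ℕ) {n : ℕ} (x : Fin n → ℤ) : Prop := ∀ j, ∃ a : ℕ, |x j| = (a : ℤ) ^ K

/-- `x` cancels in pairs modulo `q`: each nonzero residue class contains as many of the positive `x_j`
as of the numbers `-x_j` with `x_j` negative -/
def PairedModulo (q : ℕ) {n : ℕ} (x : Fin n → ℤ) : Prop :=
  ∀ r : ℤ, ¬ (q : ℤ) ∣ r →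
    (Finset.univ.filter fun j => 0 < x j ∧ x j ≡ r [ZMOD q]).card =
      (Finset.univ.filter fun j => x j < 0 ∧ -x j ≡ r [ZMOD q]).card

/-- among the terms which are not divisible by `q` there are as many positive as negative ones, and at
least one of each sign -/
def BalancedOutside (q : ℕ) {n : ℕ} (x : Fin n → ℤ) : Prop :=
  (Finset.univ.filter fun j => 0 < x j ∧ ¬ (q : ℤ) ∣ x j).card =
      (Finset.univ.filter fun j => x j < 0 ∧ ¬ (q : ℤ) ∣ x j).card ∧
    0 < (Finset.univ.filter fun j => 0 < x j ∧ ¬ (q : ℤ) ∣ x j).card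

/-- There is a set `G` of at least `z` primes such that the following holds for all multiples `K > 0`
of `k` and all admissible `n`-tuples of (plus or minus) `K`-th powers, `3 ≤ n ≤ M`. -/
def Good (M k : ℕ) (z : ℝ) : Prop :=
  ∃ G : Finset ℕ, z ≤ G.card ∧ (∀ q ∈ G, q.Prime) ∧
    ∀ K : ℕ, 0 < K → k ∣ K → ∀ n : ℕ, 3 ≤ n → n ≤ M → ∀ x : Fin n → ℤ, Admissible x →
      Powers K x →
        (∀ q ∈ G, PairedModulo q x ∧ BalancedOutside q x) ∧
          ((Finset.univ.filter fun j => 0 < x j).card ≠ (Finset.univ.filter fun j => x j < 0).card →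
            (∀ q ∈ G, (q : ℤ) ∣ ∏ j, x j) ∧ Real.exp z ≤ rad (∏ j, x j) ∧
              ∃ j, Real.exp (K * z / n) ≤ |(x j : ℝ)|)

open Pool.Agent.H573.AHB Pool.Agent.H573.AHB.LP Finset Filter

theorem count {n q : ℕ} [NeZero q] (y : Fin n → ℤ) (P : Fin n → Prop) [DecidablePred P] :
    (univ.filter fun j => P j ∧ ¬ (q : ℤ) ∣ y j).card =
      ∑ b ∈ (univ : Finset (ZMod q)).erase 0,
        (univ.filter fun j => P j ∧ y j ≡ (b.val : ℤ) [ZMOD q]).card := by
  rw [card_eq_sum_card_fiberwise (f := fun j => ((y j : ℤ) : ZMod q))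
    (t := (univ : Finset (ZMod q)).erase 0)]
  · refine sum_congr rfl fun b hb => ?_
    have hb' : b ≠ 0 := (mem_erase.mp hb).1
    congr 1
    ext j
    simp only [mem_filter, mem_univ, true_and]
    constructor
    · rintro ⟨⟨h1, h2⟩, h3⟩
      refine ⟨h1, (ZMod.intCast_eq_intCast_iff _ _ _).mp ?_⟩
      rw [h3]
      simp
    · rintro ⟨h1, h2⟩
      have h3 := (ZMod.intCast_eq_intCast_iff _ _ _).mpr h2
      have h4 : ((y j : ℤ) : ZMod q) = b := by
        rw [h3]
        simp
      refine ⟨⟨h1, fun h5 => hb' ?_⟩, h4⟩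
      rw [← h4]
      exact (ZMod.intCast_zmod_eq_zero_iff_dvd _ _).mpr h5
  · intro j hj
    have h1 := (mem_filter.mp (mem_coe.mp hj)).2.2
    refine mem_coe.mpr (mem_erase.mpr ⟨fun h2 => h1 ?_, mem_univ _⟩)
    exact (ZMod.intCast_zmod_eq_zero_iff_dvd _ _).mp h2

theorem paired {M n q ℓ k K : ℕ} (hn : n ≤ M) (hq : q.Prime) (hℓ : ℓ.Prime)
    (hqk : q - 1 = ℓ * k) (hkK : k ∣ K) (hK : K ≠ 0) (hB : ¬ Bad M q ℓ) (x : Fin n → ℤ)
    (hx : Powers K x) (hsum : ∑ j, x j = 0) : PairedModulo q x := by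
  classical
  intro r hr
  have hB' : ¬ Bad n q ℓ := by
    intro h'
    apply hB
    have := h'.mono hℓ.pos (M - n)
    rwa [show n + (M - n) = M by omega] at this
  have hz : ((r : ℤ) : ZMod q) ≠ 0 := by
    rw [Ne, ZMod.intCast_zmod_eq_zero_iff_dvd]
    exact hr
  choose a ha using hx
  have hxa : ∀ j, (((SignType.sign (x j) : SignType) : ℤ)) * (a j : ℤ) ^ K = x j := by
    intro j
    rw [← ha j]
    exact sign_mul_abs (x j)
  have h1 := loc hq hℓ ⟨k, hqk⟩ (by rw [hqk]; exact Nat.mul_dvd_mul_left ℓ hkK) hB'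
    (fun j => SignType.sign (x j)) (fun j => (((a j : ℕ) : ℤ) : ZMod q))
    (by
      have h2 := congrArg (Int.cast : ℤ → ZMod q) hsum
      rw [Int.cast_sum, Int.cast_zero] at h2
      rw [← h2]
      refine sum_congr rfl fun j _ => ?_
      conv_rhs => rw [← hxa j]
      rw [Int.cast_mul, Int.cast_pow]) hK ((r : ℤ) : ZMod q) hz
  have h3 : ((univ.filter fun j => 0 < x j ∧ x j ≡ r [ZMOD q]).card : ℤ) -
      ((univ.filter fun j => x j < 0 ∧ -x j ≡ r [ZMOD q]).card : ℤ) = 0 := by
    refine Eq.trans ?_ h1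
    rw [card_filter, card_filter]
    push_cast
    rw [← sum_sub_distrib]
    refine sum_congr rfl fun j _ => ?_
    have e1 : ((((a j : ℕ) : ℤ) : ZMod q) ^ K = ((r : ℤ) : ZMod q)) ↔ |x j| ≡ r [ZMOD q] := by
      rw [← ZMod.intCast_eq_intCast_iff, ha j]
      push_cast
      rfl
    have e2 : ((((a j : ℕ) : ZMod q)) ^ K = ((r : ℤ) : ZMod q)) ↔ |x j| ≡ r [ZMOD q] := by
      rw [← e1]
      push_cast
      rfl
    rcases lt_trichotomy (x j) 0 with h | h | h
    · rw [abs_of_neg h] at e2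
      by_cases hc : -x j ≡ r [ZMOD q]
      · rw [if_neg (fun hh => absurd hh.1 (by omega)), if_pos ⟨h, hc⟩, if_pos (e2.mpr hc)]
        simp [h]
      · rw [if_neg (fun hh => absurd hh.1 (by omega)), if_neg (fun hh => hc hh.2),
          if_neg (fun hh => hc (e2.mp hh))]
        simp
    · rw [if_neg (fun hh => absurd hh.1 (by omega)), if_neg (fun hh => absurd hh.1 (by omega))]
      simp [h]
    · rw [abs_of_pos h] at e2
      by_cases hc : x j ≡ r [ZMOD q]
      · rw [if_pos ⟨h, hc⟩, if_neg (fun hh => absurd hh.1 (by omega)), if_pos (e2.mpr hc)]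
        simp [h]
      · rw [if_neg (fun hh => hc hh.2), if_neg (fun hh => absurd hh.1 (by omega)),
          if_neg (fun hh => hc (e2.mp hh))]
        simp
  exact_mod_cast (sub_eq_zero.mp h3)

theorem balanced {n q : ℕ} (hq : q.Prime) (x : Fin n → ℤ) (hx : Admissible x)
    (h : PairedModulo q x) : BalancedOutside q x := by
  have : NeZero q := ⟨hq.ne_zero⟩
  have h1 : (univ.filter fun j => 0 < x j ∧ ¬ (q : ℤ) ∣ x j).card =
      (univ.filter fun j => x j < 0 ∧ ¬ (q : ℤ) ∣ x j).card := by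
    have e1 : (univ.filter fun j => x j < 0 ∧ ¬ (q : ℤ) ∣ x j) =
        (univ.filter fun j => x j < 0 ∧ ¬ (q : ℤ) ∣ -x j) := by
      ext j
      simp only [mem_filter, mem_univ, true_and, dvd_neg]
    rw [e1, count x (fun j => 0 < x j), count (fun j => -x j) (fun j => x j < 0)]
    refine sum_congr rfl fun b hb => ?_
    apply h
    intro hd
    apply (mem_erase.mp hb).1
    have h2 := (ZMod.intCast_zmod_eq_zero_iff_dvd _ _).mpr hd
    simpa using h2
  refine ⟨h1, ?_⟩
  obtain ⟨j, hj⟩ := hx.1 q hq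
  rcases lt_trichotomy (x j) 0 with h2 | h2 | h2
  · rw [h1]
    exact card_pos.mpr ⟨j, mem_filter.mpr ⟨mem_univ _, h2, hj⟩⟩
  · exact absurd (by rw [h2]; exact dvd_zero _) hj
  · exact card_pos.mpr ⟨j, mem_filter.mpr ⟨mem_univ _, h2, hj⟩⟩

theorem good_of {M k : ℕ} {z : ℝ} (h : GS M k z) : Good M k z := by
  classical
  obtain ⟨G, hG1, hG2⟩ := h
  refine ⟨G, hG1, fun q hq => (hG2 q hq).1, ?_⟩
  intro K hK hkK n hn hnM x hx hpow
  have hP : ∀ q ∈ G, PairedModulo q x := by
    intro q hq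
    obtain ⟨h1, ℓ, h2, -, h3, h4⟩ := hG2 q hq
    exact paired hnM h1 h2 h3 hkK hK.ne' h4 x hpow hx.2.1
  have hBal : ∀ q ∈ G, BalancedOutside q x := fun q hq => balanced (hG2 q hq).1 x hx (hP q hq)
  refine ⟨fun q hq => ⟨hP q hq, hBal q hq⟩, ?_⟩
  intro hne
  have hx0 : ∀ j, x j ≠ 0 := by
    intro j
    have h1 := hx.2.2 {j} (singleton_nonempty j) (by
      intro h2
      have h3 := congrArg Finset.card h2
      rw [card_singleton, card_univ, Fintype.card_fin] at h3
      omega)
    simpa using h1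
  have hdiv : ∀ q ∈ G, ∃ j, (q : ℤ) ∣ x j := by
    intro q hq
    by_contra hcon
    push Not at hcon
    apply hne
    have h1 := (hBal q hq).1
    have e1 : (univ.filter fun j => 0 < x j ∧ ¬ (q : ℤ) ∣ x j) =
        (univ.filter fun j => 0 < x j) := by
      ext j
      simp only [mem_filter, mem_univ, true_and, and_iff_left (hcon j)]
    have e2 : (univ.filter fun j => x j < 0 ∧ ¬ (q : ℤ) ∣ x j) =
        (univ.filter fun j => x j < 0) := by
      ext j
      simp only [mem_filter, mem_univ, true_and, and_iff_left (hcon j)]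
    rw [e1, e2] at h1
    exact h1
  have hprod : ∀ q ∈ G, (q : ℤ) ∣ ∏ j, x j := by
    intro q hq
    obtain ⟨j, hj⟩ := hdiv q hq
    exact hj.trans (dvd_prod_of_mem x (mem_univ j))
  have hprod0 : (∏ j, x j) ≠ 0 := prod_ne_zero_iff.mpr fun j _ => hx0 j
  have h3q : ∀ q ∈ G, 3 ≤ q := by
    intro q hq
    obtain ⟨h1, ℓ, h2, h3, h4, -⟩ := hG2 q hq
    have hk : k ≠ 0 := by
      rintro rfl
      rw [mul_zero] at h4
      have := h1.two_le
      omega
    have h5 : ℓ ≤ ℓ * k := Nat.le_mul_of_pos_right ℓ (Nat.pos_of_ne_zero hk)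
    omega
  refine ⟨hprod, ?_, ?_⟩
  · have hr0 : rad (∏ j, x j) ≠ 0 := by
      unfold rad
      exact prod_ne_zero_iff.mpr fun p hp => (Nat.prime_of_mem_primeFactors hp).ne_zero
    have hbig := big_of_dvd G (rad (∏ j, x j)) hr0 (by
      intro q hq
      refine ⟨(hG2 q hq).1, h3q q hq, ?_⟩
      unfold rad
      apply dvd_prod_of_mem (fun p => p)
      exact Nat.mem_primeFactors.mpr ⟨(hG2 q hq).1, Int.natCast_dvd.mp (hprod q hq),
        Int.natAbs_ne_zero.mpr hprod0⟩)
    exact (Real.exp_le_exp.mpr hG1).trans hbig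
  · choose a ha using hpow
    have ha0 : ∀ j, a j ≠ 0 := by
      intro j hj
      have h1 := ha j
      rw [hj] at h1
      have h2 : |x j| = 0 := by
        rw [h1]
        simp [hK.ne']
      exact hx0 j (abs_eq_zero.mp h2)
    have hbig := big_of_dvd G (∏ j, a j) (prod_ne_zero_iff.mpr fun j _ => ha0 j) (by
      intro q hq
      have hqp := (hG2 q hq).1
      refine ⟨hqp, h3q q hq, ?_⟩
      obtain ⟨j, hj⟩ := hdiv q hq
      have h1 : (q : ℤ) ∣ (a j : ℤ) ^ K := by
        rw [← ha j]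
        exact (dvd_abs _ _).mpr hj
      have h2 : (q : ℤ) ∣ (a j : ℤ) := (Nat.prime_iff_prime_int.mp hqp).dvd_of_dvd_pow h1
      exact (Int.natCast_dvd_natCast.mp h2).trans (dvd_prod_of_mem a (mem_univ j)))
    have hz : Real.exp z ≤ ((∏ j, a j : ℕ) : ℝ) := (Real.exp_le_exp.mpr hG1).trans hbig
    have hn0 : (0 : ℝ) < n := by
      have : 0 < n := by omega
      exact_mod_cast this
    obtain ⟨j, hj⟩ : ∃ j, Real.exp (z / n) ≤ (a j : ℝ) := by
      by_contra hcon
      push Not at hcon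
      have h1 : ((∏ j, a j : ℕ) : ℝ) < ∏ _j : Fin n, Real.exp (z / n) := by
        push_cast
        apply prod_lt_prod_of_nonempty
        · intro j _
          have := Nat.pos_of_ne_zero (ha0 j)
          exact_mod_cast this
        · intro j _
          exact hcon j
        · exact ⟨⟨0, by omega⟩, mem_univ _⟩
      rw [prod_const, card_univ, Fintype.card_fin, ← Real.exp_nat_mul,
        mul_div_cancel₀ z hn0.ne'] at h1
      linarith
    refine ⟨j, ?_⟩
    have h1 : |(x j : ℝ)| = (a j : ℝ) ^ K := by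
      have := congrArg (Int.cast : ℤ → ℝ) (ha j)
      push_cast at this
      exact this
    rw [h1, mul_div_assoc, Real.exp_nat_mul]
    exact pow_le_pow_left₀ (Real.exp_pos _).le hj K

/-- **Admissible tuples of powers cancel in pairs modulo many primes, for a positive proportion of the
exponents; if their number of terms is odd their radical is large.** -/
theorem result (M : ℕ) : ∃ δ : ℝ, 0 < δ ∧ ∃ c : ℝ, 0 < c ∧ ∃ Y₀ : ℕ, ∀ Y : ℕ, Y₀ ≤ Y →
    c * Y ≤ (Set.ncard {k : ℕ | 1 ≤ k ∧ k ≤ Y ∧ Good M k ((k : ℝ) ^ δ)} : ℝ) := by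
  classical
  obtain ⟨δ, hδ, c, hc, h⟩ := dens M
  obtain ⟨Y₀, hY₀⟩ := eventually_atTop.mp h
  refine ⟨δ, hδ, c, hc, Y₀, fun Y hY => (hY₀ Y hY).trans ?_⟩
  apply Nat.cast_le.mpr
  rw [← Set.ncard_coe_finset]
  apply Set.ncard_le_ncard
  · intro k hk
    have hk' := mem_filter.mp (mem_coe.mp hk)
    have hk1 := mem_Icc.mp hk'.1
    refine ⟨hk1.1, hk1.2, good_of ?_⟩
    obtain ⟨G, h1, h2⟩ := hk'.2
    refine ⟨G, le_trans ?_ h1, h2⟩
    have : (0 : ℝ) ≤ (k : ℝ) ^ δ := by positivity
    linarith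
  · exact (Set.finite_Iic Y).subset fun k hk => hk.2.1

end Pool.Agent.Results.MP_a95293_nt.PowersPairedModManyPrimes
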