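import Pool.Agent.H583.SF.ThinMain

/-!
# Exceptions of Oesterlé's inequality with members composed of primes of thin sets, all heights

Let `𝒫₁, 𝒫₂, 𝒫₃` be sets of primes with `∑ p ∈ 𝒫ᵢ, p ^ (-sᵢ) ≤ Sᵢ`, `0 ≤ sᵢ ≤ 1` (no condition if
`sᵢ = 1`). The abc triples `a + b = c` of any height with `rad (abc) ≤ X` whose members `a, b, c` are
composed of primes of `𝒫₁, 𝒫₂, 𝒫₃` and which violate `c < rad (abc) ^ M` are at most
`C exp (m (S₁ + S₂ + S₃)) X ^ (h + ε)` in number, where `M, m, C` depend only on `ε` and `h` is the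
largest of `1 / (1 / s₁ + 1 / s₂ + 1 / s₃)` and the numbers `1 / (2 (1 / sᵢ + 1 / sⱼ))`.

If all primes of `a b c` belong to one set of exponent `s` then `h = s / 3` (for instance `1 / 6` for
the primes of the form `n ^ 2 + 1`); if this is known for two of the members then `h = s / (s + 2)`,
and for one of the members `h = max (1 / 4, s / (2 s + 1))`. The sets may depend on `X`. For the primes
up to `(log X) ^ A`, `A > 1`, and `s = 1 - 1 / A + δ` one can take `S = c (log X) ^ (1 - A δ)`, so that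
for the triples of `(log X) ^ A`-smooth numbers the exponent is `(1 - 1 / A) / 3`.

Proof. By the product formula for the squarefree numbers composed of primes of `𝒫ᵢ`, there are at most
`exp (Sᵢ) Y ^ sᵢ` of them up to `Y`. The exceptional triples two members of which have radicals at most
`R₁`, `R₂` in families which are closed under divisors and have at most `Gᵢ Y ^ αᵢ` members up to `Y` are
at most `C (G₁ G₂) ^ m X ^ ε √(R₁ ^ α₁ R₂ ^ α₂)` in number (library). For all values of the three radicals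
with product at most `X` one of the three pairs gives the exponent `h`.
-/

set_option autoImplicit false

namespace Pool.Agent.Results.MP_a95293_nt.ThinPrimes

/-- the product of the primes dividing `n` -/
def radical (n : ℕ) : ℕ := ∏ p ∈ n.primeFactors, p

/-- the exponent: the largest of `1 / (1 / s₁ + 1 / s₂ + 1 / s₃)` and of the three numbers
`1 / (2 (1 / sᵢ + 1 / sⱼ))`, `i < j`; a fraction with denominator zero is zero -/
noncomputable def exponent (s₁ s₂ s₃ : ℝ) : ℝ :=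
  max (s₁ * s₂ * s₃ / (s₁ * s₂ + s₁ * s₃ + s₂ * s₃))
    (max (s₁ * s₂ / (2 * (s₁ + s₂))) (max (s₁ * s₃ / (2 * (s₁ + s₃))) (s₂ * s₃ / (2 * (s₂ + s₃)))))

/-- the pairs `(a, b)` of coprime positive integers with `rad (a b c) ≤ X`, `c = a + b`, which violate
`c < rad (a b c) ^ M` and for which the primes dividing `a`, `b`, `c` belong to `P 0`, `P 1`, `P 2` -/
def exceptions (P : Fin 3 → Set ℕ) (M X : ℕ) : Set (ℕ × ℕ) :=
  {q | 0 < q.1 ∧ 0 < q.2 ∧ Nat.Coprime q.1 q.2 ∧ radical (q.1 * q.2 * (q.1 + q.2)) ≤ X ∧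
    radical (q.1 * q.2 * (q.1 + q.2)) ^ M ≤ q.1 + q.2 ∧
    (∀ p ∈ q.1.primeFactors, p ∈ P 0) ∧ (∀ p ∈ q.2.primeFactors, p ∈ P 1) ∧
    ∀ p ∈ (q.1 + q.2).primeFactors, p ∈ P 2}

/-- a bound for all finite subsets is a bound for the set -/
theorem of_bound {α : Type*} {S : Set α} {B : ℝ}
    (hB : ∀ Q : Finset α, (∀ q ∈ Q, q ∈ S) → (Q.card : ℝ) ≤ B) :
    S.Finite ∧ (S.ncard : ℝ) ≤ B := by
  have hf : S.Finite := by
    by_contra hcon
    obtain ⟨t, ht, hc⟩ := Set.Infinite.exists_subset_card_eq hcon (⌊B⌋₊ + 1)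
    have h1 := hB t fun q hq => ht (Finset.mem_coe.2 hq)
    rw [hc] at h1
    have h2 := Nat.lt_floor_add_one B
    push_cast at h1
    linarith
  refine ⟨hf, ?_⟩
  rw [Set.ncard_eq_toFinset_card S hf]
  exact hB _ fun q hq => hf.mem_toFinset.mp hq

/-- **Exceptions of Oesterlé's inequality with members composed of primes of thin sets.** For every
`ε > 0` there are `M`, `m` and `C` such that for all sets `P 0, P 1, P 2` and all real numbers
`0 ≤ s i ≤ 1`, `S i ≥ 0` such that `∑ p ∈ T, p ^ (-s i) ≤ S i` for all finite sets `T` of primes in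
`P i`, if `s i < 1`, and for all `X ≥ 1`: at most `C exp (m (S 0 + S 1 + S 2)) X ^ (h + ε)`,
`h = exponent (s 0) (s 1) (s 2)`, abc triples `a + b = c` of any height with `rad (a b c) ≤ X`, whose
members `a, b, c` are composed of primes of `P 0`, `P 1`, `P 2`, violate `c < rad (a b c) ^ M`. -/
theorem result : ∀ ε : ℝ, 0 < ε → ∃ M m : ℕ, ∃ C : ℝ, 0 < C ∧
    ∀ (P : Fin 3 → Set ℕ) (s S : Fin 3 → ℝ),
    (∀ i, 0 ≤ s i ∧ s i ≤ 1 ∧ 0 ≤ S i ∧ (s i < 1 →
      ∀ T : Finset ℕ, (∀ p ∈ T, p ∈ P i ∧ p.Prime) → ∑ p ∈ T, ((p : ℝ) ^ (s i))⁻¹ ≤ S i)) →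
    ∀ X : ℕ, 1 ≤ X → (exceptions P M X).Finite ∧ ((exceptions P M X).ncard : ℝ) ≤
      C * Real.exp (m * (S 0 + S 1 + S 2)) * (X : ℝ) ^ (exponent (s 0) (s 1) (s 2) + ε) := by
  intro ε hε
  obtain ⟨M, m, C, hC, h⟩ := Pool.Agent.H583.SF.thin_main ε hε
  refine ⟨M, m, C, hC, fun P s S hP X hX => of_bound fun Q hQ => ?_⟩
  refine h P s S hP X hX Q fun q hq => ?_
  obtain ⟨q1, q2, q3, q4, q5, q6, q7, q8⟩ := hQ q hq
  refine ⟨q1, q2, q3, q4, q5, fun i p hp hpd => ?_⟩
  fin_cases i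
  · exact q6 p (Nat.mem_primeFactors.2 ⟨hp, hpd, q1.ne'⟩)
  · exact q7 p (Nat.mem_primeFactors.2 ⟨hp, hpd, q2.ne'⟩)
  · exact q8 p (Nat.mem_primeFactors.2 ⟨hp, hpd, (Nat.add_pos_left q1 q.2).ne'⟩)

end Pool.Agent.Results.MP_a95293_nt.ThinPrimes
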